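import Pool.Graph.R_seed8.Helper741.Alt

/-!
Braid groups, Artin's action on the free group, and the universal property of the semidirect product.
-/

set_option autoImplicit false

namespace Pool.Agent.H53.BR

open Pool.Agent.Helper741

section family

variable {G : Type*} [Group G]

/-- Artin's action on families -/
def act (i : ℕ) (x : ℕ → G) : ℕ → G := fun k =>
  if k = i then x (i + 1) else if k = i + 1 then (x (i + 1))⁻¹ * x i * x (i + 1) else x k

/-- its inverse -/
def act' (i : ℕ) (x : ℕ → G) : ℕ → G := fun k =>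
  if k = i then x i * x (i + 1) * (x i)⁻¹ else if k = i + 1 then x i else x k

theorem act_self (i : ℕ) (x : ℕ → G) : act i x i = x (i + 1) := if_pos rfl

theorem act_succ (i : ℕ) (x : ℕ → G) : act i x (i + 1) = (x (i + 1))⁻¹ * x i * x (i + 1) := by
  unfold act
  rw [if_neg (by omega), if_pos rfl]

theorem act_ne {i k : ℕ} (x : ℕ → G) (h1 : k ≠ i) (h2 : k ≠ i + 1) : act i x k = x k := by
  unfold act
  rw [if_neg h1, if_neg h2]

theorem act'_self (i : ℕ) (x : ℕ → G) : act' i x i = x i * x (i + 1) * (x i)⁻¹ := if_pos rfl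

theorem act'_succ (i : ℕ) (x : ℕ → G) : act' i x (i + 1) = x i := by
  unfold act'
  rw [if_neg (by omega), if_pos rfl]

theorem act'_ne {i k : ℕ} (x : ℕ → G) (h1 : k ≠ i) (h2 : k ≠ i + 1) : act' i x k = x k := by
  unfold act'
  rw [if_neg h1, if_neg h2]

theorem act_act' (i : ℕ) (x : ℕ → G) : act i (act' i x) = x := by
  funext k
  by_cases h1 : k = i
  · subst h1
    rw [act_self, act'_succ]
  · by_cases h2 : k = i + 1
    · subst h2
      rw [act_succ, act'_self, act'_succ]
      group
    · rw [act_ne _ h1 h2, act'_ne _ h1 h2]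

theorem act'_act (i : ℕ) (x : ℕ → G) : act' i (act i x) = x := by
  funext k
  by_cases h1 : k = i
  · subst h1
    rw [act'_self, act_self, act_succ]
    group
  · by_cases h2 : k = i + 1
    · subst h2
      rw [act'_succ, act_self]
    · rw [act'_ne _ h1 h2, act_ne _ h1 h2]

theorem act_comm {i j : ℕ} (h : i + 2 ≤ j) (x : ℕ → G) : act i (act j x) = act j (act i x) := by
  funext k
  by_cases h1 : k = i
  · subst h1
    rw [act_self, act_ne _ (by omega) (by omega), act_ne _ (by omega) (by omega), act_self]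
  · by_cases h2 : k = i + 1
    · subst h2
      rw [act_succ, act_ne _ (by omega) (by omega), act_ne _ (by omega) (by omega),
        act_ne _ (by omega) (by omega), act_succ]
    · rw [act_ne _ h1 h2]
      by_cases h3 : k = j
      · subst h3
        rw [act_self, act_self, act_ne _ (by omega) (by omega)]
      · by_cases h4 : k = j + 1
        · subst h4
          rw [act_succ, act_succ, act_ne _ (by omega) (by omega), act_ne _ (by omega) (by omega)]
        · rw [act_ne _ h3 h4, act_ne _ h3 h4, act_ne _ h1 h2]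

theorem act_braid (i : ℕ) (x : ℕ → G) :
    act i (act (i + 1) (act i x)) = act (i + 1) (act i (act (i + 1) x)) := by
  have e0 : ∀ y : ℕ → G, act (i + 1) y i = y i := fun y => act_ne _ (by omega) (by omega)
  have e1 : ∀ y : ℕ → G, act i y (i + 1 + 1) = y (i + 1 + 1) := fun y => act_ne _ (by omega) (by omega)
  funext k
  by_cases h1 : k = i
  · subst h1
    rw [act_self, act_self, e1, e0, act_self, act_self]
  · by_cases h2 : k = i + 1
    · subst h2
      rw [act_succ, act_self, e0, e1, act_self, act_self, e1, act_succ]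
    · by_cases h3 : k = i + 1 + 1
      · subst h3
        rw [e1, act_succ, act_succ (i + 1), e1, act_succ, e1, act_succ, act_succ, e0, act_self]
        group
      · rw [act_ne _ h1 h2, act_ne _ h2 h3, act_ne _ h1 h2, act_ne _ h2 h3, act_ne _ h1 h2,
          act_ne _ h2 h3]

theorem map_act {G' : Type*} [Group G'] (f : G →* G') (i : ℕ) (x : ℕ → G) (k : ℕ) :
    f (act i x k) = act i (fun k => f (x k)) k := by
  unfold act
  split_ifs
  · rfl
  · rw [map_mul, map_mul, map_inv]
  · rfl

theorem map_act' {G' : Type*} [Group G'] (f : G →* G') (i : ℕ) (x : ℕ → G) (k : ℕ) :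
    f (act' i x k) = act' i (fun k => f (x k)) k := by
  unfold act'
  split_ifs
  · rw [map_mul, map_mul, map_inv]
  · rfl
  · rfl

theorem act_congr {m i : ℕ} (hi : i + 1 < m) {x y : ℕ → G} (h : ∀ k, k < m → x k = y k) (k : ℕ)
    (hk : k < m) : act i x k = act i y k := by
  unfold act
  rw [h _ hi, h i (by omega), h k hk]

theorem act'_congr {m i : ℕ} (hi : i + 1 < m) {x y : ℕ → G} (h : ∀ k, k < m → x k = y k) (k : ℕ)
    (hk : k < m) : act' i x k = act' i y k := by
  unfold act'
  rw [h _ hi, h i (by omega), h k hk]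

end family

section free

variable {G : Type*} [Group G]

/-- the generators of the free group -/
def xg (m k : ℕ) : FreeGroup (Fin m) := if h : k < m then FreeGroup.of ⟨k, h⟩ else 1

/-- homomorphisms on the free group -/
def fl {m : ℕ} (x : ℕ → G) : FreeGroup (Fin m) →* G := FreeGroup.lift fun k => x k

theorem fl_xg {m : ℕ} (x : ℕ → G) {k : ℕ} (h : k < m) : fl x (xg m k) = x k := by
  unfold fl xg
  rw [dif_pos h, FreeGroup.lift_apply_of]

theorem free_ext {m : ℕ} {f f' : FreeGroup (Fin m) →* G}
    (h : ∀ k, k < m → f (xg m k) = f' (xg m k)) : f = f' := by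
  ext ⟨k, hk⟩
  have := h k hk
  unfold xg at this
  rwa [dif_pos hk] at this

/-- Artin's automorphism -/
def aut (m i : ℕ) (h : i + 1 < m) : MulAut (FreeGroup (Fin m)) :=
  MonoidHom.toMulEquiv (fl (act i (xg m))) (fl (act' i (xg m)))
    (free_ext fun k hk => by
      rw [MonoidHom.comp_apply, fl_xg _ hk, map_act, MonoidHom.id_apply]
      rw [act_congr h (y := act' i (xg m)) (fun l hl => fl_xg _ hl) k hk, act_act'])
    (free_ext fun k hk => by
      rw [MonoidHom.comp_apply, fl_xg _ hk, map_act', MonoidHom.id_apply]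
      rw [act'_congr h (y := act i (xg m)) (fun l hl => fl_xg _ hl) k hk, act'_act])

theorem aut_xg {m i : ℕ} (h : i + 1 < m) {k : ℕ} (hk : k < m) :
    aut m i h (xg m k) = act i (xg m) k := fl_xg _ hk

theorem aut_hom_ext {m : ℕ} {a b : MulAut (FreeGroup (Fin m))}
    (h : ∀ k, k < m → a (xg m k) = b (xg m k)) : a = b := by
  have : a.toMonoidHom = b.toMonoidHom := free_ext h
  exact MulEquiv.toMonoidHom_injective this

theorem aut_comm {m i j : ℕ} (hi : i + 1 < m) (hj : j + 1 < m) (hij : i + 2 ≤ j) :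
    aut m i hi * aut m j hj = aut m j hj * aut m i hi := by
  refine aut_hom_ext fun k hk => ?_
  show aut m i hi (aut m j hj (xg m k)) = aut m j hj (aut m i hi (xg m k))
  rw [aut_xg hj hk, aut_xg hi hk]
  have e1 := map_act (aut m i hi).toMonoidHom j (xg m) k
  have e2 := map_act (aut m j hj).toMonoidHom i (xg m) k
  refine e1.trans (Eq.trans ?_ e2.symm)
  exact (act_congr hj (fun l hl => aut_xg hi hl) k hk).trans
    ((congrFun (act_comm hij (xg m)) k).symm.trans (act_congr hi (fun l hl => aut_xg hj hl) k hk).symm)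

theorem aut_braid {m i : ℕ} (hi : i + 1 < m) (hj : i + 1 + 1 < m) :
    aut m i hi * aut m (i + 1) hj * aut m i hi = aut m (i + 1) hj * aut m i hi * aut m (i + 1) hj := by
  have key : ∀ {a b : ℕ} (ha : a + 1 < m) (hb : b + 1 < m) (k : ℕ), k < m →
      (aut m a ha * aut m b hb * aut m a ha) (xg m k) = act a (act b (act a (xg m))) k := by
    intro a b ha hb k hk
    show aut m a ha (aut m b hb (aut m a ha (xg m k))) = _
    rw [aut_xg ha hk]
    have e1 := map_act ((aut m a ha).toMonoidHom.comp (aut m b hb).toMonoidHom) a (xg m) k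
    refine e1.trans (act_congr ha (fun l hl => ?_) k hk)
    show aut m a ha (aut m b hb (xg m l)) = _
    rw [aut_xg hb hl]
    exact (map_act (aut m a ha).toMonoidHom b (xg m) l).trans
      (act_congr hb (fun l hl => aut_xg ha hl) l hl)
  refine aut_hom_ext fun k hk => ?_
  rw [key hi hj k hk, key hj hi k hk, act_braid]

end free

section braid

variable {G : Type*} [Group G]

/-- the braid group on `n + 1` strands -/
abbrev Bn (n : ℕ) : Type := Artin (CoxeterMatrix.A n)

/-- its generators -/
def sg (n i : ℕ) : Bn n := if h : i < n then Artin.gen _ ⟨i, h⟩ else 1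

theorem alt_three {G : Type*} [Monoid G] (a b : G) : alt a b 3 = a * b * a := by
  rw [alt_succ, alt_two, mul_assoc]

theorem A_apply (n : ℕ) (i j : Fin n) : CoxeterMatrix.A n i j =
    if i = j then 1 else if (j : ℕ) + 1 = i ∨ (i : ℕ) + 1 = j then 3 else 2 := rfl

/-- homomorphisms on the braid group -/
def bLift {n : ℕ} (s : ℕ → G) (h1 : ∀ i j, i + 2 ≤ j → j < n → s i * s j = s j * s i)
    (h2 : ∀ i, i + 1 < n → s i * s (i + 1) * s i = s (i + 1) * s i * s (i + 1)) : Bn n →* G :=
  Artin.lift (fun i => s i) (by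
    intro i j
    rw [A_apply]
    by_cases hij : i = j
    · subst hij
      rfl
    · have hne : (i : ℕ) ≠ j := fun h => hij (Fin.ext h)
      rw [if_neg hij]
      by_cases hadj : (j : ℕ) + 1 = i ∨ (i : ℕ) + 1 = j
      · rw [if_pos hadj, alt_three, alt_three]
        rcases hadj with h | h
        · rw [← h]
          exact (h2 j (by have := i.2; omega)).symm
        · rw [← h]
          exact h2 i (by have := j.2; omega)
      · rw [if_neg hadj, alt_two, alt_two]
        push Not at hadj
        rcases lt_or_gt_of_ne hne with h | h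
        · exact h1 i j (by omega) j.2
        · exact (h1 j i (by omega) i.2).symm)

theorem bLift_sg {n : ℕ} (s : ℕ → G) (h1 : ∀ i j, i + 2 ≤ j → j < n → s i * s j = s j * s i)
    (h2 : ∀ i, i + 1 < n → s i * s (i + 1) * s i = s (i + 1) * s i * s (i + 1)) {i : ℕ} (hi : i < n) :
    bLift s h1 h2 (sg n i) = s i := by
  unfold bLift sg
  rw [dif_pos hi, Artin.lift_gen]

theorem sg_comm {n i j : ℕ} (h : i + 2 ≤ j) : sg n i * sg n j = sg n j * sg n i := by
  by_cases hj : j < n
  · have h1 := Artin.rel (M := CoxeterMatrix.A n) ⟨i, by omega⟩ ⟨j, hj⟩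
    rw [A_apply, if_neg (by rw [Fin.mk.injEq]; omega), if_neg (by
      show ¬ (j + 1 = i ∨ i + 1 = j)
      omega), alt_two, alt_two] at h1
    unfold sg
    rw [dif_pos hj, dif_pos (by omega)]
    exact h1
  · unfold sg
    rw [dif_neg hj, one_mul, mul_one]

theorem sg_braid {n i : ℕ} (h : i + 1 < n) :
    sg n i * sg n (i + 1) * sg n i = sg n (i + 1) * sg n i * sg n (i + 1) := by
  have h1 := Artin.rel (M := CoxeterMatrix.A n) ⟨i, by omega⟩ ⟨i + 1, h⟩
  rw [A_apply, if_neg (by rw [Fin.mk.injEq]; omega), if_pos (Or.inr rfl), alt_three, alt_three] at h1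
  unfold sg
  rw [dif_pos h, dif_pos (by omega)]
  exact h1

theorem b_ext {n : ℕ} {f f' : Bn n →* G} (h : ∀ i, i < n → f (sg n i) = f' (sg n i)) : f = f' := by
  refine Artin.hom_ext fun ⟨i, hi⟩ => ?_
  have := h i hi
  unfold sg at this
  rwa [dif_pos hi] at this

theorem b_ind {n : ℕ} {p : Bn n → Prop} (one : p 1) (gen : ∀ i, i < n → p (sg n i))
    (mul : ∀ x y, p x → p y → p (x * y)) (inv : ∀ x, p x → p x⁻¹) (x : Bn n) : p x := by
  refine Artin.induction one (fun ⟨i, hi⟩ => ?_) mul inv x
  have := gen i hi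
  unfold sg at this
  rwa [dif_pos hi] at this

/-- Artin's automorphisms, indexed by the natural numbers -/
def autN (m i : ℕ) : MulAut (FreeGroup (Fin m)) := if h : i + 1 < m then aut m i h else 1

/-- Artin's action of the braid group on the free group -/
def rho (n : ℕ) : Bn n →* MulAut (FreeGroup (Fin (n + 1))) :=
  bLift (autN (n + 1)) (fun i j hij hj => by
    unfold autN
    rw [dif_pos (by omega), dif_pos (by omega)]
    exact aut_comm _ _ hij) (fun i hi => by
    unfold autN
    rw [dif_pos (by omega), dif_pos (by omega)]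
    exact aut_braid _ _)

theorem rho_sg {n i k : ℕ} (hi : i < n) (hk : k ≤ n) :
    rho n (sg n i) (xg (n + 1) k) = act i (xg (n + 1)) k := by
  unfold rho
  rw [bLift_sg _ _ _ hi]
  unfold autN
  rw [dif_pos (by omega)]
  exact aut_xg _ (by omega)

/-- the semidirect product of the free group and the braid group -/
abbrev HH (n : ℕ) : Type := FreeGroup (Fin (n + 1)) ⋊[rho n] Bn n

end braid

section lift

variable {G : Type*} [Group G] {n : ℕ} (g : Bn n →* G) (t : G)

/-- the images of the free generators -/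
def yy : ℕ → G
  | 0 => t
  | k + 1 => g (sg n k) * yy k * (g (sg n k))⁻¹

variable (h1 : ∀ i, 1 ≤ i → i < n → t * g (sg n i) = g (sg n i) * t)

include h1 in
theorem yyA (k : ℕ) : ∀ i, k + 1 ≤ i → i < n → yy g t k * g (sg n i) = g (sg n i) * yy g t k := by
  induction k with
  | zero => exact h1
  | succ k ih =>
    intro i hi hin
    have e1 := ih i (by omega) hin
    have e2 : g (sg n k) * g (sg n i) = g (sg n i) * g (sg n k) := by
      rw [← map_mul, ← map_mul, sg_comm (by omega)]
    show g (sg n k) * yy g t k * (g (sg n k))⁻¹ * g (sg n i) =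
      g (sg n i) * (g (sg n k) * yy g t k * (g (sg n k))⁻¹)
    have e3 : Commute (g (sg n i)) (g (sg n k)) := e2.symm
    have e4 : Commute (g (sg n i)) (yy g t k) := e1.symm
    exact ((e3.mul_right e4).mul_right e3.inv_right).symm

include h1 in
theorem yyB (k i : ℕ) (hi : i + 2 ≤ k) (hk : k ≤ n) :
    yy g t k * g (sg n i) = g (sg n i) * yy g t k := by
  induction k, hi using Nat.le_induction with
  | base =>
    have e1 := yyA g t h1 i (i + 1) le_rfl (by omega)
    have e2 : g (sg n i) * g (sg n (i + 1)) * g (sg n i) =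
        g (sg n (i + 1)) * g (sg n i) * g (sg n (i + 1)) := by
      rw [← map_mul, ← map_mul, ← map_mul, ← map_mul, sg_braid (by omega)]
    show g (sg n (i + 1)) * (g (sg n i) * yy g t i * (g (sg n i))⁻¹) * (g (sg n (i + 1)))⁻¹ *
      g (sg n i) = g (sg n i) * (g (sg n (i + 1)) * (g (sg n i) * yy g t i * (g (sg n i))⁻¹) *
        (g (sg n (i + 1)))⁻¹)
    generalize g (sg n i) = a at *
    generalize g (sg n (i + 1)) = b at *
    generalize yy g t i = y at *
    -- a b a = b a b, y b = b y; b a y a⁻¹ b⁻¹ a = a b a y a⁻¹ b⁻¹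
    have e3 : a * b * a * y * a⁻¹ * b⁻¹ * a⁻¹ = b * a * y * a⁻¹ * b⁻¹ := by
      have e4 : a⁻¹ * b⁻¹ * a⁻¹ = b⁻¹ * a⁻¹ * b⁻¹ := by
        have := congrArg (·⁻¹) e2
        simpa [mul_assoc] using this
      calc a * b * a * y * a⁻¹ * b⁻¹ * a⁻¹ = (a * b * a) * y * (a⁻¹ * b⁻¹ * a⁻¹) := by group
        _ = (b * a * b) * y * (b⁻¹ * a⁻¹ * b⁻¹) := by rw [e2, e4]
        _ = b * a * (b * y) * b⁻¹ * a⁻¹ * b⁻¹ := by group
        _ = b * a * (y * b) * b⁻¹ * a⁻¹ * b⁻¹ := by rw [e1]
        _ = b * a * y * a⁻¹ * b⁻¹ := by group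
    calc b * (a * y * a⁻¹) * b⁻¹ * a = (b * a * y * a⁻¹ * b⁻¹) * a := by group
      _ = (a * b * a * y * a⁻¹ * b⁻¹ * a⁻¹) * a := by rw [e3]
      _ = a * (b * (a * y * a⁻¹) * b⁻¹) := by group
  | succ k hk' ih =>
    have e1 := ih (by omega)
    have e2 : g (sg n i) * g (sg n k) = g (sg n k) * g (sg n i) := by
      rw [← map_mul, ← map_mul, sg_comm (by omega)]
    show g (sg n k) * yy g t k * (g (sg n k))⁻¹ * g (sg n i) =
      g (sg n i) * (g (sg n k) * yy g t k * (g (sg n k))⁻¹)
    have e3 : Commute (g (sg n i)) (g (sg n k)) := e2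
    have e4 : Commute (g (sg n i)) (yy g t k) := e1.symm
    exact ((e3.mul_right e4).mul_right e3.inv_right).symm

variable (h2 : 0 < n → t * g (sg n 0) * t * g (sg n 0) = g (sg n 0) * t * g (sg n 0) * t)

include h1 h2 in
theorem yyC (k : ℕ) (hk : k < n) : yy g t k * g (sg n k) * yy g t k * g (sg n k) =
    g (sg n k) * yy g t k * g (sg n k) * yy g t k := by
  induction k with
  | zero => exact h2 hk
  | succ k ih =>
    have e0 := ih (by omega)
    have e1 := yyA g t h1 k (k + 1) le_rfl hk
    have e2 : g (sg n k) * g (sg n (k + 1)) * g (sg n k) =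
        g (sg n (k + 1)) * g (sg n k) * g (sg n (k + 1)) := by
      rw [← map_mul, ← map_mul, ← map_mul, ← map_mul, sg_braid hk]
    show g (sg n k) * yy g t k * (g (sg n k))⁻¹ * g (sg n (k + 1)) *
      (g (sg n k) * yy g t k * (g (sg n k))⁻¹) * g (sg n (k + 1)) =
        g (sg n (k + 1)) * (g (sg n k) * yy g t k * (g (sg n k))⁻¹) * g (sg n (k + 1)) *
      (g (sg n k) * yy g t k * (g (sg n k))⁻¹)
    generalize g (sg n k) = a at *
    generalize g (sg n (k + 1)) = b at *
    generalize yy g t k = y at *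
    -- h = a b: h a h⁻¹ = b, h y h⁻¹ = a y a⁻¹
    have f1 : b = (a * b) * a * (a * b)⁻¹ := by
      rw [eq_mul_inv_iff_mul_eq, ← mul_assoc, ← e2]
    have f2 : a * y * a⁻¹ = (a * b) * y * (a * b)⁻¹ := by
      calc a * y * a⁻¹ = a * (y * b) * b⁻¹ * a⁻¹ := by group
        _ = a * (b * y) * b⁻¹ * a⁻¹ := by rw [e1]
        _ = _ := by group
    rw [f2]
    have hc : ∀ h : G, b = h * a * h⁻¹ → (h * y * h⁻¹) * b * (h * y * h⁻¹) * b =
        b * (h * y * h⁻¹) * b * (h * y * h⁻¹) := by
      intro h hb
      rw [hb]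
      calc (h * y * h⁻¹) * (h * a * h⁻¹) * (h * y * h⁻¹) * (h * a * h⁻¹) =
          h * (y * a * y * a) * h⁻¹ := by group
        _ = h * (a * y * a * y) * h⁻¹ := by rw [e0]
        _ = _ := by group
    exact hc _ f1

include h1 h2 in
/-- the relations of the semidirect product -/
theorem yy_act {i k : ℕ} (hi : i < n) (hk : k ≤ n) :
    g (sg n i) * yy g t k * (g (sg n i))⁻¹ = act i (yy g t) k := by
  rcases lt_trichotomy k i with h | h | h
  · rw [act_ne _ (by omega) (by omega), ← yyA g t h1 k i h hi, mul_inv_cancel_right]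
  · subst h
    rw [act_self]
    rfl
  · rcases eq_or_lt_of_le (Nat.succ_le_of_lt h) with h' | h'
    · obtain rfl : k = i + 1 := h'.symm
      rw [act_succ]
      have e0 := yyC g t h1 h2 i hi
      show g (sg n i) * (g (sg n i) * yy g t i * (g (sg n i))⁻¹) * (g (sg n i))⁻¹ =
        (g (sg n i) * yy g t i * (g (sg n i))⁻¹)⁻¹ * yy g t i *
          (g (sg n i) * yy g t i * (g (sg n i))⁻¹)
      generalize g (sg n i) = s at *
      generalize yy g t i = y at *
      have e1 : s * y * s * y * s⁻¹ * s⁻¹ = y * s * y * s⁻¹ := by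
        rw [← e0]
        group
      calc s * (s * y * s⁻¹) * s⁻¹ = s * y⁻¹ * s⁻¹ * (s * y * s * y * s⁻¹ * s⁻¹) := by group
        _ = s * y⁻¹ * s⁻¹ * (y * s * y * s⁻¹) := by rw [e1]
        _ = _ := by group
    · rw [act_ne _ (by omega) (by omega), ← yyB g t h1 k i (by omega) hk, mul_inv_cancel_right]

include h1 h2 in
theorem yy_compat (b : Bn n) (w : FreeGroup (Fin (n + 1))) :
    fl (yy g t) (rho n b w) = g b * fl (yy g t) w * (g b)⁻¹ := by
  revert w
  refine b_ind (p := fun b => ∀ w, fl (yy g t) (rho n b w) = g b * fl (yy g t) w * (g b)⁻¹)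
    ?_ ?_ ?_ ?_ b
  · intro w
    simp
  · intro i hi w
    have : (fl (yy g t)).comp (rho n (sg n i)).toMonoidHom =
        (MulAut.conj (g (sg n i))).toMonoidHom.comp (fl (yy g t)) := by
      refine free_ext fun k hk => ?_
      show fl (yy g t) (rho n (sg n i) (xg (n + 1) k)) =
        g (sg n i) * fl (yy g t) (xg (n + 1) k) * (g (sg n i))⁻¹
      rw [rho_sg hi (by omega), map_act, fl_xg _ hk, yy_act g t h1 h2 hi (by omega)]
      exact act_congr (m := n + 1) (by omega) (fun l hl => fl_xg _ hl) k hk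
    exact DFunLike.congr_fun this w
  · intro x y hx hy w
    rw [map_mul, MulAut.mul_apply, hx, hy, map_mul, mul_inv_rev]
    group
  · intro x hx w
    have e1 := hx (rho n x⁻¹ w)
    rw [← MulAut.mul_apply, ← map_mul, mul_inv_cancel, map_one, MulAut.one_apply] at e1
    have e2 : g x⁻¹ = (g x)⁻¹ := map_inv g x
    rw [e1, e2]
    group

/-- **the universal property** of the semidirect product of the free group and the braid group -/
def hlift : HH n →* G :=
  SemidirectProduct.lift (fl (yy g t)) g fun b => MonoidHom.ext fun w => yy_compat g t h1 h2 b w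

theorem hlift_inr (b : Bn n) : hlift g t h1 h2 (SemidirectProduct.inr b) = g b :=
  SemidirectProduct.lift_inr _ _ _ _

theorem hlift_inl (w : FreeGroup (Fin (n + 1))) :
    hlift g t h1 h2 (SemidirectProduct.inl w) = fl (yy g t) w :=
  SemidirectProduct.lift_inl _ _ _ _

theorem hlift_x {k : ℕ} (hk : k ≤ n) :
    hlift g t h1 h2 (SemidirectProduct.inl (xg (n + 1) k)) = yy g t k := by
  rw [hlift_inl, fl_xg _ (by omega)]

end lift

end Pool.Agent.H53.BR
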