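import Pool.Agent.H53.BR.Rot

/-!
The Artin group of affine type `A` inside the semidirect product: injectivity.
-/

set_option autoImplicit false

namespace Pool.Agent.H53.BR

open Pool.Agent.Helper741 Pool.Agent.H53.VA

variable (n : ℕ)

theorem cyc_shift (a : ZMod (n + 1)) (i j : ZMod (n + 1)) :
    cyc (n + 1) (i + a) (j + a) = cyc (n + 1) i j := by
  rw [cyc_apply, cyc_apply]
  have e1 : i + a = j + a ↔ i = j := add_left_inj a
  have e2 : i + a + 1 = j + a ↔ i + 1 = j := by
    rw [add_right_comm]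
    exact add_left_inj a
  have e3 : j + a + 1 = i + a ↔ j + 1 = i := by
    rw [add_right_comm]
    exact add_left_inj a
  simp only [e1, e2, e3]

/-- the rotations of the Artin group of the cycle -/
def rotH (a : ZMod (n + 1)) : Artin (cyc (n + 1)) →* Artin (cyc (n + 1)) :=
  Artin.lift (fun i => Artin.gen _ (i + a)) (by
    intro i j
    have := Artin.rel (M := cyc (n + 1)) (i + a) (j + a)
    rwa [cyc_shift] at this)

theorem rotH_gen (a i : ZMod (n + 1)) : rotH n a (Artin.gen _ i) = Artin.gen _ (i + a) :=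
  Artin.lift_gen _ _ _

/-- the rotation as an automorphism -/
def rotA : MulAut (Artin (cyc (n + 1))) :=
  MonoidHom.toMulEquiv (rotH n (-1)) (rotH n 1)
    (Artin.hom_ext fun i => by
      rw [MonoidHom.comp_apply, rotH_gen, rotH_gen, MonoidHom.id_apply, neg_add_cancel_right])
    (Artin.hom_ext fun i => by
      rw [MonoidHom.comp_apply, rotH_gen, rotH_gen, MonoidHom.id_apply, add_neg_cancel_right])

theorem rotA_gen (i : ZMod (n + 1)) : rotA n (Artin.gen _ i) = Artin.gen _ (i - 1) := by
  rw [sub_eq_add_neg]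
  exact rotH_gen n (-1) i

/-- the semidirect product with the rotation -/
abbrev RC : Type := Artin (cyc (n + 1)) ⋊[zpowersHom _ (rotA n)] Multiplicative ℤ

/-- the generators -/
def cg (k : ℤ) : RC n := SemidirectProduct.inl (Artin.gen _ (k : ZMod (n + 1)))

/-- the rotation -/
def cr : RC n := SemidirectProduct.inr (Multiplicative.ofAdd 1)

theorem cr_cg (k : ℤ) : cr n * cg n k * (cr n)⁻¹ = cg n (k - 1) := by
  have h1 := SemidirectProduct.inl_aut (φ := zpowersHom _ (rotA n)) (Multiplicative.ofAdd (1 : ℤ))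
    (Artin.gen (cyc (n + 1)) (k : ZMod (n + 1)))
  unfold cr cg
  rw [← map_inv, ← h1]
  congr 1
  have : (zpowersHom (MulAut (Artin (cyc (n + 1)))) (rotA n)) (Multiplicative.ofAdd (1 : ℤ)) = rotA n := by
    rw [zpowersHom_apply, toAdd_ofAdd, zpow_one]
  rw [this, rotA_gen]
  push_cast
  rfl

theorem cg_comm {n i j : ℕ} (h : i + 2 ≤ j) (hj : j < n) : cg n i * cg n j = cg n j * cg n i := by
  unfold cg
  rw [← map_mul, ← map_mul]
  congr 1
  apply rel2
  rw [cyc_apply]
  have hne : ∀ a b : ℕ, a < n + 1 → b < n + 1 → ((a : ℕ) : ZMod (n + 1)) = (b : ℕ) → a = b := by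
    intro a b ha hb hab
    rw [ZMod.natCast_eq_natCast_iff] at hab
    exact Nat.ModEq.eq_of_lt_of_lt hab ha hb
  rw [if_neg, if_neg]
  · rintro (h1 | h1)
    · have := hne (i + 1) j (by omega) (by omega) (by push_cast; push_cast at h1; exact h1)
      omega
    · have := hne (j + 1) i (by omega) (by omega) (by push_cast; push_cast at h1; exact h1)
      omega
  · intro h1
    have := hne i j (by omega) (by omega) (by push_cast at h1; exact h1)
    omega

theorem cg_braid {n i : ℕ} (hj : i + 1 < n) :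
    cg n i * cg n (i + 1 : ℕ) * cg n i = cg n (i + 1 : ℕ) * cg n i * cg n (i + 1 : ℕ) := by
  unfold cg
  rw [← map_mul, ← map_mul, ← map_mul, ← map_mul]
  congr 1
  apply rel3
  rw [cyc_apply]
  have hne : ∀ a b : ℕ, a < n + 1 → b < n + 1 → ((a : ℕ) : ZMod (n + 1)) = (b : ℕ) → a = b := by
    intro a b ha hb hab
    rw [ZMod.natCast_eq_natCast_iff] at hab
    exact Nat.ModEq.eq_of_lt_of_lt hab ha hb
  rw [if_neg, if_pos]
  · left
    push_cast
    rfl
  · intro h1
    have := hne i (i + 1) (by omega) (by omega) (by push_cast at h1 ⊢; exact h1)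
    omega

/-- the braid group -/
def gC : Bn n →* RC n :=
  bLift (fun i => cg n i) (fun _ _ h hj => cg_comm h hj) fun _ h => cg_braid h

theorem gC_sg {i : ℕ} (hi : i < n) : gC n (sg n i) = cg n i := bLift_sg _ _ _ hi

/-- the image of the free generator -/
def tC : RC n := (gC n (dd n n))⁻¹ * cr n

theorem rr_C : rr (gC n) (tC n) = cr n := by
  unfold rr tC
  rw [mul_inv_cancel_left]

theorem tC_comm (i : ℕ) (hi : 1 ≤ i) (hin : i < n) : tC n * gC n (sg n i) = gC n (sg n i) * tC n := by
  have e1 : cr n * gC n (sg n i) = gC n (sg n (i - 1)) * cr n := by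
    rw [gC_sg n hin, gC_sg n (by omega)]
    have := cr_cg n i
    rw [mul_inv_eq_iff_eq_mul] at this
    rw [this, Nat.cast_sub hi]
    rfl
  have e2 : gC n (dd n n) * gC n (sg n i) = gC n (sg n (i - 1)) * gC n (dd n n) := by
    rw [← map_mul, ← map_mul, dd_sg n i hi hin le_rfl]
  unfold tC
  rw [mul_assoc, e1, ← mul_assoc, ← mul_assoc]
  congr 1
  rw [inv_mul_eq_iff_eq_mul, ← mul_assoc, e2, mul_inv_cancel_right]

theorem tC_B (hn : 0 < n) : tC n * gC n (sg n 0) * tC n * gC n (sg n 0) =
    gC n (sg n 0) * tC n * gC n (sg n 0) * tC n := by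
  have e1 := rr_one (gC n) (tC n) (tC_comm n) hn
  have e2 := rr_two (gC n) (tC n) (tC_comm n) hn
  have e3 : rr (gC n) (tC n) * rr (gC n) (tC n) * gC n (sg n 0) =
      gC n (sg n (n - 1)) * (rr (gC n) (tC n) * rr (gC n) (tC n)) := by
    rw [rr_C, gC_sg n hn, gC_sg n (by omega)]
    have f1 := cr_cg n 0
    have f2 := cr_cg n (0 - 1)
    rw [mul_inv_eq_iff_eq_mul] at f1 f2
    have f3 : cg n (0 - 1 - 1) = cg n (n - 1 : ℕ) := by
      unfold cg
      congr 2
      rw [Nat.cast_sub (by omega : 1 ≤ n)]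
      push_cast
      have : ((n + 1 : ℕ) : ZMod (n + 1)) = 0 := ZMod.natCast_self _
      push_cast at this
      linear_combination -this
    rw [Nat.cast_zero, mul_assoc, f1, ← mul_assoc, f2, f3, mul_assoc]
  rw [e1, e2] at e3
  exact mul_left_cancel e3

/-- the homomorphism to the semidirect product -/
def embCyc (hn : 2 ≤ n) : Artin (cyc (n + 1)) →* HH n :=
  embC (SemidirectProduct.inr (φ := rho n)) (xx n 0)
    (fun i h1 h2 => (ss_xx_ne (i := i) h2 (Nat.zero_le n) (by omega) (by omega)).symm)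
    (fun h => ss_xx_B h) hn

theorem embCyc_injective (hn : 2 ≤ n) : Function.Injective (embCyc n hn) := by
  let Ψ : HH n →* RC n := hlift (gC n) (tC n) (tC_comm n) (tC_B n)
  have h1 : Ψ.comp (embCyc n hn) = SemidirectProduct.inl := by
    refine Artin.hom_ext fun i => ?_
    rw [MonoidHom.comp_apply]
    have e1 : embCyc n hn (Artin.gen _ i) = cc (SemidirectProduct.inr (φ := rho n)) (xx n 0) i.val :=
      embC_gen _ _ _ _ _ _
    have e2 : Ψ (rr (SemidirectProduct.inr (φ := rho n)) (xx n 0)) = cr n := by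
      unfold rr
      rw [map_mul]
      have f1 : Ψ (SemidirectProduct.inr (dd n n)) = gC n (dd n n) := hlift_inr _ _ _ _ _
      have f2 : Ψ (xx n 0) = tC n := hlift_x _ _ _ _ (Nat.zero_le n)
      rw [f1, f2]
      exact rr_C n
    have e3 : Ψ (SemidirectProduct.inr (sg n 0)) = cg n 0 := by
      have f1 : Ψ (SemidirectProduct.inr (sg n 0)) = gC n (sg n 0) := hlift_inr _ _ _ _ _
      rw [f1, gC_sg n (by omega)]
      rfl
    rw [e1]
    unfold cc
    rw [map_mul, map_mul, map_zpow, map_zpow, e2, e3]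
    have e4 : ∀ k : ℕ, (cr n) ^ (-(k : ℤ)) * cg n 0 * (cr n) ^ (k : ℤ) = cg n k := by
      intro k
      induction k with
      | zero => simp
      | succ k ih =>
        have f1 := cr_cg n (k + 1)
        rw [mul_inv_eq_iff_eq_mul, add_sub_cancel_right] at f1
        have f2 : (cr n) ^ (-((k + 1 : ℕ) : ℤ)) * cg n 0 * (cr n) ^ ((k + 1 : ℕ) : ℤ) =
            (cr n)⁻¹ * ((cr n) ^ (-(k : ℤ)) * cg n 0 * (cr n) ^ (k : ℤ)) * cr n := by
          push_cast
          group
        rw [f2, ih, mul_assoc, ← f1, inv_mul_cancel_left]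
        push_cast
        rfl
    rw [e4]
    unfold cg
    congr 2
    have : ((i.val : ℕ) : ZMod (n + 1)) = i := ZMod.natCast_zmod_val i
    push_cast
    exact this
  intro a b hab
  have h2 : SemidirectProduct.inl (φ := zpowersHom _ (rotA n)) a = SemidirectProduct.inl b := by
    rw [← h1, MonoidHom.comp_apply, MonoidHom.comp_apply, hab]
  exact SemidirectProduct.inl_injective h2

end Pool.Agent.H53.BR
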