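import Pool.Agent.H53.BR.Wr
import Pool.Agent.H53.BR.Rot2
import Pool.Graph.R_pool_sql_team_seeded_b0a926ef.R779.BC.Cl

/-!
Braid groups and the Artin groups of types `B` and affine `A` in classes closed under extensions.
-/

set_option autoImplicit false

namespace Pool.Agent.H53.BR.BC

open Pool.Agent.Helper741 Pool.Agent.H53.VA Pool.Agent.H53.BR
open Pool.Agent.R779.BC (ExtCl ext_hom pi_fin freeX triv)

variable {C : ∀ (G : Type) [Group G], Prop} (hC : ExtCl C)

include hC

theorem semi {N G : Type} [Group N] [Group G] (φ : G →* MulAut N) (hN : C N) (hG : C G) :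
    C (N ⋊[φ] G) := by
  refine ext_hom hC (SemidirectProduct.rightHom (φ := φ)) ?_ hG
  rw [← SemidirectProduct.range_inl_eq_ker_rightHom]
  exact hC.sub _ _ (MonoidHom.ofInjective
    (SemidirectProduct.inl_injective (φ := φ))).symm.toMonoidHom (MulEquiv.injective _) hN

theorem hh_mem {n : ℕ} (h : C (Bn n)) : C (HH n) := semi hC _ (freeX hC _) h

variable (hfin : ∀ m : ℕ, C (Equiv.Perm (Fin m)))

include hfin

theorem wr_mem {G : Type} [Group G] (hG : C G) (m : ℕ) : C (Wr G m) :=
  semi hC _ (pi_fin hC hG _) (hfin m)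

/-- **braid groups** -/
theorem bn_mem (n : ℕ) : C (Bn n) := by
  induction n with
  | zero =>
    have : Subsingleton (Bn 0) := by
      constructor
      intro a b
      have h : (MonoidHom.id (Bn 0)) = 1 := Artin.hom_ext fun i => i.elim0
      have h1 := DFunLike.congr_fun h a
      have h2 := DFunLike.congr_fun h b
      exact h1.trans h2.symm
    exact triv hC _
  | succ n ih =>
    exact hC.sub _ _ (mono n) (mono_injective n) (wr_mem hC hfin (hh_mem hC ih) _)

/-- **Artin groups of affine type `A`** -/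
theorem cyc_mem (n : ℕ) (hn : 3 ≤ n) : C (Artin (cyc n)) := by
  obtain ⟨m, rfl⟩ := Nat.exists_eq_add_of_le' (by omega : 1 ≤ n)
  exact hC.sub _ _ (embCyc m (by omega)) (embCyc_injective m (by omega))
    (hh_mem hC (bn_mem hC hfin m))

/-- **Artin groups of type `B`** -/
theorem B_mem (n : ℕ) (hn : 1 ≤ n) : C (Artin (CoxeterMatrix.B n)) := by
  obtain ⟨m, rfl⟩ := Nat.exists_eq_add_of_le' hn
  exact hC.sub _ _ (embB m) (embB_injective m) (hh_mem hC (bn_mem hC hfin m))

end Pool.Agent.H53.BR.BC
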