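import Pool.Agent.H53.BR.Art
import Pool.Agent.H53.VA.Cyc

/-!
The Artin groups of types `B` and affine `A` inside the semidirect product of the free group and the
braid group.
-/

set_option autoImplicit false

namespace Pool.Agent.H53.BR

open Pool.Agent.Helper741 Pool.Agent.H53.VA

section rel

variable {B : Type*} {M : CoxeterMatrix B} {i j : B}

theorem rel2 (h : M i j = 2) : Artin.gen M i * Artin.gen M j = Artin.gen M j * Artin.gen M i := by
  have := Artin.rel (M := M) i j
  rwa [h, alt_two, alt_two] at this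

theorem rel3 (h : M i j = 3) : Artin.gen M i * Artin.gen M j * Artin.gen M i =
    Artin.gen M j * Artin.gen M i * Artin.gen M j := by
  have := Artin.rel (M := M) i j
  rwa [h, alt_three, alt_three] at this

theorem alt_four {G : Type*} [Monoid G] (a b : G) : alt a b 4 = a * b * a * b := by
  rw [alt_succ, alt_three]
  simp only [mul_assoc]

theorem rel4 (h : M i j = 4) : Artin.gen M i * Artin.gen M j * Artin.gen M i * Artin.gen M j =
    Artin.gen M j * Artin.gen M i * Artin.gen M j * Artin.gen M i := by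
  have := Artin.rel (M := M) i j
  rwa [h, alt_four, alt_four] at this

end rel

section HH

variable {n : ℕ}

/-- the braid generators -/
def ss (n i : ℕ) : HH n := SemidirectProduct.inr (sg n i)

/-- the free generators -/
def xx (n k : ℕ) : HH n := SemidirectProduct.inl (xg (n + 1) k)

theorem ss_xx {i k : ℕ} (hi : i < n) (hk : k ≤ n) : ss n i * xx n k * (ss n i)⁻¹ = act i (xx n) k := by
  have h1 := SemidirectProduct.inl_aut (φ := rho n) (sg n i) (xg (n + 1) k)
  rw [rho_sg hi hk] at h1
  unfold ss
  rw [← map_inv]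
  unfold xx
  rw [← h1]
  exact map_act (SemidirectProduct.inl (φ := rho n)) i (xg (n + 1)) k

theorem ss_comm {i j : ℕ} (h : i + 2 ≤ j) : ss n i * ss n j = ss n j * ss n i := by
  unfold ss
  rw [← map_mul, ← map_mul, sg_comm h]

theorem ss_braid {i : ℕ} (h : i + 1 < n) :
    ss n i * ss n (i + 1) * ss n i = ss n (i + 1) * ss n i * ss n (i + 1) := by
  unfold ss
  rw [← map_mul, ← map_mul, ← map_mul, ← map_mul, sg_braid h]

theorem ss_xx_ne {i k : ℕ} (hi : i < n) (hk : k ≤ n) (h1 : k ≠ i) (h2 : k ≠ i + 1) :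
    ss n i * xx n k = xx n k * ss n i := by
  have := ss_xx hi hk
  rw [act_ne _ h1 h2, mul_inv_eq_iff_eq_mul] at this
  exact this

theorem ss_xx_self {i : ℕ} (hi : i < n) : ss n i * xx n i = xx n (i + 1) * ss n i := by
  have := ss_xx hi hi.le
  rw [act_self, mul_inv_eq_iff_eq_mul] at this
  exact this

theorem ss_xx_succ {i : ℕ} (hi : i < n) :
    ss n i * xx n (i + 1) = (xx n (i + 1))⁻¹ * xx n i * xx n (i + 1) * ss n i := by
  have := ss_xx hi (Nat.succ_le_of_lt hi)
  rw [act_succ, mul_inv_eq_iff_eq_mul] at this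
  exact this

/-- the relation of type `B` -/
theorem ss_xx_B {i : ℕ} (hi : i < n) : xx n i * ss n i * xx n i * ss n i =
    ss n i * xx n i * ss n i * xx n i := by
  have h1 := ss_xx_self hi
  have h2 := ss_xx_succ hi
  calc xx n i * ss n i * xx n i * ss n i = xx n i * (ss n i * xx n i) * ss n i := by group
    _ = xx n i * (xx n (i + 1) * ss n i) * ss n i := by rw [h1]
    _ = xx n (i + 1) * ((xx n (i + 1))⁻¹ * xx n i * xx n (i + 1) * ss n i) * ss n i := by group
    _ = xx n (i + 1) * (ss n i * xx n (i + 1)) * ss n i := by rw [h2]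
    _ = (xx n (i + 1) * ss n i) * (xx n (i + 1) * ss n i) := by group
    _ = (ss n i * xx n i) * (ss n i * xx n i) := by rw [h1]
    _ = ss n i * xx n i * ss n i * xx n i := by group

end HH

section typeB

theorem B_apply (n : ℕ) (i j : Fin n) : CoxeterMatrix.B n i j =
    if i = j then 1 else (if (i : ℕ) = n - 1 ∧ (j : ℕ) = n - 2 ∨ (j : ℕ) = n - 1 ∧ (i : ℕ) = n - 2 then 4
      else (if (j : ℕ) + 1 = i ∨ (i : ℕ) + 1 = j then 3 else 2)) := rfl

/-- the generators of the Artin group of type `B`, numbered from the short end -/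
def bb (n k : ℕ) : Artin (CoxeterMatrix.B (n + 1)) := Artin.gen _ ⟨n - k, by omega⟩

theorem bb_comm {n i j : ℕ} (hij : i + 2 ≤ j) (hj : j ≤ n) : bb n i * bb n j = bb n j * bb n i := by
  apply rel2
  rw [B_apply, if_neg (by rw [Fin.mk.injEq]; omega), if_neg (by
    show ¬ ((n - i = n + 1 - 1 ∧ n - j = n + 1 - 2) ∨ (n - j = n + 1 - 1 ∧ n - i = n + 1 - 2))
    omega), if_neg (by
    show ¬ (n - j + 1 = n - i ∨ n - i + 1 = n - j)
    omega)]

theorem bb_braid {n i : ℕ} (hi : 1 ≤ i) (hj : i + 1 ≤ n) :
    bb n i * bb n (i + 1) * bb n i = bb n (i + 1) * bb n i * bb n (i + 1) := by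
  apply rel3
  rw [B_apply, if_neg (by rw [Fin.mk.injEq]; omega), if_neg (by
    show ¬ ((n - i = n + 1 - 1 ∧ n - (i + 1) = n + 1 - 2) ∨ (n - (i + 1) = n + 1 - 1 ∧ n - i = n + 1 - 2))
    omega), if_pos (by
    show n - (i + 1) + 1 = n - i ∨ n - i + 1 = n - (i + 1)
    omega)]

theorem bb_four {n : ℕ} (hn : 1 ≤ n) :
    bb n 0 * bb n 1 * bb n 0 * bb n 1 = bb n 1 * bb n 0 * bb n 1 * bb n 0 := by
  apply rel4
  rw [B_apply, if_neg (by rw [Fin.mk.injEq]; omega), if_pos (by
    show (n - 0 = n + 1 - 1 ∧ n - 1 = n + 1 - 2) ∨ (n - 1 = n + 1 - 1 ∧ n - 0 = n + 1 - 2)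
    omega)]

/-- the images of the generators -/
def bimg (n k : ℕ) : HH n := if k = 0 then xx n 0 else ss n (k - 1)

theorem bimg_comm {n i j : ℕ} (hij : i + 2 ≤ j) (hj : j ≤ n) :
    bimg n i * bimg n j = bimg n j * bimg n i := by
  unfold bimg
  rw [if_neg (by omega : ¬ j = 0)]
  by_cases h : i = 0
  · rw [if_pos h]
    exact (ss_xx_ne (by omega) (by omega) (by omega) (by omega)).symm
  · rw [if_neg h]
    exact ss_comm (by omega)

theorem bimg_braid {n i : ℕ} (hi : 1 ≤ i) (hj : i + 1 ≤ n) :
    bimg n i * bimg n (i + 1) * bimg n i = bimg n (i + 1) * bimg n i * bimg n (i + 1) := by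
  unfold bimg
  rw [if_neg (by omega), if_neg (by omega)]
  obtain ⟨k, rfl⟩ := Nat.exists_eq_add_of_le' hi
  exact ss_braid (by omega)

theorem bimg_four {n : ℕ} (hn : 1 ≤ n) :
    bimg n 0 * bimg n 1 * bimg n 0 * bimg n 1 = bimg n 1 * bimg n 0 * bimg n 1 * bimg n 0 := by
  unfold bimg
  rw [if_pos rfl, if_neg (by omega)]
  exact ss_xx_B (by omega)

/-- the homomorphism on the Artin group of type `B` -/
def embB (n : ℕ) : Artin (CoxeterMatrix.B (n + 1)) →* HH n :=
  Artin.lift (fun i => bimg n (n - i)) (by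
    have key : ∀ a b : ℕ, a < b → b ≤ n → ∀ L : ℕ, L = (if a = 0 ∧ b = 1 then 4 else
        if a + 1 = b then 3 else 2) → alt (bimg n a) (bimg n b) L = alt (bimg n b) (bimg n a) L := by
      intro a b hab hb L hL
      by_cases h1 : a = 0 ∧ b = 1
      · rw [if_pos h1] at hL
        obtain ⟨rfl, rfl⟩ := h1
        rw [hL, alt_four, alt_four]
        exact bimg_four hb
      · rw [if_neg h1] at hL
        by_cases h2 : a + 1 = b
        · rw [if_pos h2] at hL
          rw [hL, alt_three, alt_three]
          subst h2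
          exact bimg_braid (by omega) hb
        · rw [if_neg h2] at hL
          rw [hL, alt_two, alt_two]
          exact bimg_comm (by omega) hb
    intro i j
    have hi := i.2
    have hj := j.2
    rw [B_apply]
    by_cases hij : i = j
    · subst hij
      rfl
    · have hne : (i : ℕ) ≠ j := fun h => hij (Fin.ext h)
      rw [if_neg hij]
      rcases lt_or_gt_of_ne hne with h | h
      · refine (key (n - j) (n - i) (by omega) (by omega) _ ?_).symm
        split_ifs <;> first | rfl | (exfalso; omega)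
      · refine key (n - i) (n - j) (by omega) (by omega) _ ?_
        split_ifs <;> first | rfl | (exfalso; omega))

theorem embB_bb {n k : ℕ} (hk : k ≤ n) : embB n (bb n k) = bimg n k := by
  unfold embB bb
  rw [Artin.lift_gen]
  show bimg n (n - (n - k)) = _
  congr 1
  omega

/-- the braid group in the Artin group of type `B` -/
def gB (n : ℕ) : Bn n →* Artin (CoxeterMatrix.B (n + 1)) :=
  bLift (fun i => bb n (i + 1)) (fun _ _ h hj => bb_comm (by omega) (by omega))
    fun _ h => bb_braid (by omega) (by omega)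

theorem gB_sg {n i : ℕ} (hi : i < n) : gB n (sg n i) = bb n (i + 1) := bLift_sg _ _ _ hi

theorem embB_injective (n : ℕ) : Function.Injective (embB n) := by
  let Ψ : HH n →* Artin (CoxeterMatrix.B (n + 1)) := hlift (gB n) (bb n 0)
    (fun i h1 h2 => by
      rw [gB_sg h2]
      exact bb_comm (by omega) (by omega))
    (fun h => by
      rw [gB_sg h]
      exact bb_four h)
  have h1 : Ψ.comp (embB n) = MonoidHom.id _ := by
    refine Artin.hom_ext fun i => ?_
    have e : Artin.gen _ i = bb n (n - i) := by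
      unfold bb
      congr 1
      ext
      show (i : ℕ) = n - (n - i)
      have := i.2
      omega
    have hle : n - (i : ℕ) ≤ n := by omega
    rw [e]
    generalize n - (i : ℕ) = k at hle
    rw [MonoidHom.comp_apply, embB_bb hle, MonoidHom.id_apply]
    unfold bimg
    split_ifs with h
    · subst h
      exact (hlift_x _ _ _ _ (Nat.zero_le n)).trans rfl
    · refine (hlift_inr _ _ _ _ _).trans ?_
      rw [gB_sg (by omega)]
      congr 1
      omega
  exact Function.LeftInverse.injective (g := Ψ) fun x => DFunLike.congr_fun h1 x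

end typeB

end Pool.Agent.H53.BR
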