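import Pool.Agent.H53.BR.Wr
import Pool.Agent.H53.BR.Rot2
import Pool.Graph.R_seed8.Y110.FJ.Stm

/-!
Braid groups and the Artin groups of types `B` and affine `A` in classes with the closure properties of
the Farrell–Jones groups.
-/

set_option autoImplicit false

namespace Pool.Agent.H53.BR.FJ

open Pool.Agent.Helper741 Pool.Agent.H53.VA Pool.Agent.H53.BR
open Pool.Agent.Y110.FJ

/-- the mapping torus of the braid `b`: the group of the link given by the closed braid and its axis -/
abbrev Tor (n : ℕ) (b : Bn n) : Type :=
  FreeGroup (Fin (n + 1)) ⋊[(rho n).comp (zpowersHom (Bn n) b)] Multiplicative ℤ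

/-- the homomorphism to the semidirect product -/
def torH (n : ℕ) (b : Bn n) : Tor n b →* HH n :=
  SemidirectProduct.map (MonoidHom.id _) (zpowersHom (Bn n) b) fun _ => rfl

theorem torH_inj {n : ℕ} {b : Bn n} (hb : ¬ IsOfFinOrder b) : Function.Injective (torH n b) := by
  rintro ⟨w, k⟩ ⟨w', k'⟩ h
  have h1 : w = w' := congrArg SemidirectProduct.left h
  have h2 : (zpowersHom (Bn n) b) k = (zpowersHom (Bn n) b) k' := congrArg SemidirectProduct.right h
  rw [zpowersHom_apply, zpowersHom_apply] at h2
  have h3 : Multiplicative.toAdd k = Multiplicative.toAdd k' :=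
    injective_zpow_iff_not_isOfFinOrder.2 hb h2
  have h4 : k = k' := h3
  rw [h1, h4]

variable {C : ∀ (G : Type) [Group G], Prop} (hC : ClosedE C)
variable (hT : ∀ (n : ℕ) (b : Bn n), C (Tor n b))

include hC hT

theorem free_mem (n : ℕ) : C (FreeGroup (Fin (n + 1))) :=
  hC.base.of_injective _ _ (SemidirectProduct.inl (φ := (rho n).comp (zpowersHom (Bn n) 1)))
    SemidirectProduct.inl_injective (hT n 1)

theorem hh_mem {n : ℕ} (h : C (Bn n)) : C (HH n) := by
  refine hC.ext (HH n) (Bn n) SemidirectProduct.rightHom SemidirectProduct.rightHom_surjective h ?_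
  rintro V ⟨c, hc, hfi⟩
  let π : HH n →* Bn n := SemidirectProduct.rightHom
  let K : Subgroup (HH n) := (Subgroup.zpowers c).comap π
  have hKV : K.relIndex (V.comap π) ≠ 0 := by
    have h1 : K.relIndex (V.comap π) = (Subgroup.zpowers c).relIndex V := by
      rw [Subgroup.relIndex_comap]
      rw [Subgroup.map_comap_eq_self_of_surjective SemidirectProduct.rightHom_surjective]
    rw [h1]
    exact hfi
  have hK : C K := by
    by_cases hb : IsOfFinOrder c
    · -- the free group has finite index
      let N : Subgroup (HH n) := π.ker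
      have hN : C N := by
        have h2 : N = (SemidirectProduct.inl (φ := rho n)).range :=
          SemidirectProduct.range_inl_eq_ker_rightHom.symm
        rw [h2]
        exact hC.base.of_injective _ _ (MonoidHom.ofInjective
          (SemidirectProduct.inl_injective (φ := rho n))).symm.toMonoidHom (MulEquiv.injective _)
          (free_mem hC hT n)
      have hNK : N ≤ K := fun x hx => by
        have hx' : π x = 1 := hx
        show π x ∈ Subgroup.zpowers c
        rw [hx']
        exact one_mem _
      have hfin : Finite (Subgroup.zpowers c) := hb.finite_zpowers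
      have h3 : N.relIndex K ≠ 0 := by
        have h4 : N = (⊥ : Subgroup (Bn n)).comap π := (MonoidHom.comap_bot π).symm
        rw [h4, Subgroup.relIndex_comap,
          Subgroup.map_comap_eq_self_of_surjective SemidirectProduct.rightHom_surjective,
          Subgroup.relIndex_bot_left]
        exact Nat.card_pos.ne'
      refine hC.base.finiteIndex K (N.subgroupOf K) ⟨h3⟩ ?_
      exact hC.base.of_injective _ _ (Subgroup.subgroupOfEquivOfLe hNK).toMonoidHom
        (MulEquiv.injective _) hN
    · have hle : K ≤ (torH n c).range := by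
        intro x hx
        obtain ⟨k, hk⟩ := Subgroup.mem_zpowers_iff.1 (show π x ∈ Subgroup.zpowers c from hx)
        refine ⟨⟨x.left, Multiplicative.ofAdd k⟩, ?_⟩
        refine SemidirectProduct.ext rfl ?_
        show (zpowersHom (Bn n) c) (Multiplicative.ofAdd k) = x.right
        rw [zpowersHom_apply, toAdd_ofAdd, hk]
        rfl
      refine hC.base.of_injective _ _ ((MonoidHom.ofInjective (torH_inj hb)).symm.toMonoidHom.comp
        (Subgroup.inclusion hle)) ?_ (hT n c)
      exact (MonoidHom.ofInjective (torH_inj hb)).symm.injective.comp (Subgroup.inclusion_injective hle)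
  refine hC.base.finiteIndex (V.comap π) (K.subgroupOf (V.comap π)) ⟨hKV⟩ ?_
  have hle : K ≤ V.comap π := Subgroup.comap_mono (by
    rw [Subgroup.zpowers_le]
    exact hc)
  exact hC.base.of_injective _ _ (Subgroup.subgroupOfEquivOfLe hle).toMonoidHom
    (MulEquiv.injective _) hK

omit hT in
theorem pi_fin {A : Type} [Group A] (hA : C A) (m : ℕ) : C (Fin m → A) := by
  induction m with
  | zero =>
    exact hC.base.of_injective _ A 1 (fun _ _ _ => Subsingleton.elim _ _) hA
  | succ m ih =>
    refine hC.base.of_injective _ (A × (Fin m → A))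
      { toFun := fun u => (u 0, fun x => u x.succ)
        map_one' := rfl
        map_mul' := fun _ _ => rfl } ?_ (hC.base.prod _ _ hA ih)
    intro u v h
    funext o
    refine Fin.cases ?_ ?_ o
    · exact congrArg Prod.fst h
    · exact fun x => congrFun (congrArg Prod.snd h) x

omit hT in
theorem wr_mem {G : Type} [Group G] (hG : C G) (m : ℕ) : C (Wr G m) := by
  let N : Subgroup (Wr G m) := (SemidirectProduct.rightHom : Wr G m →* Equiv.Perm (Fin m)).ker
  have hN : C N := by
    have h2 : N = (SemidirectProduct.inl (N := Fin m → G) (G := Equiv.Perm (Fin m))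
        (φ := mulAutArrow)).range :=
      SemidirectProduct.range_inl_eq_ker_rightHom.symm
    rw [h2]
    exact hC.base.of_injective _ _ (MonoidHom.ofInjective
      (SemidirectProduct.inl_injective (N := Fin m → G) (G := Equiv.Perm (Fin m))
        (φ := mulAutArrow))).symm.toMonoidHom (MulEquiv.injective _)
      (pi_fin hC hG m)
  have hfi : N.FiniteIndex := Subgroup.finiteIndex_ker _
  exact hC.base.finiteIndex _ N hfi hN

/-- **braid groups** -/
theorem bn_mem (n : ℕ) : C (Bn n) := by
  induction n with
  | zero =>
    have : Subsingleton (Bn 0) := by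
      constructor
      intro a b
      have h : (MonoidHom.id (Bn 0)) = 1 := Artin.hom_ext fun i => i.elim0
      have h1 := DFunLike.congr_fun h a
      have h2 := DFunLike.congr_fun h b
      exact h1.trans h2.symm
    exact hC.base.of_injective _ (Multiplicative ℤ) 1 (fun _ _ _ => Subsingleton.elim _ _) hC.base.int
  | succ n ih =>
    exact hC.base.of_injective _ _ (mono n) (mono_injective n) (wr_mem hC (hh_mem hC hT ih) _)

/-- **Artin groups of affine type `A`** -/
theorem cyc_mem (n : ℕ) (hn : 3 ≤ n) : C (Artin (cyc n)) := by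
  obtain ⟨m, rfl⟩ := Nat.exists_eq_add_of_le' (by omega : 1 ≤ n)
  exact hC.base.of_injective _ _ (embCyc m (by omega)) (embCyc_injective m (by omega))
    (hh_mem hC hT (bn_mem hC hT m))

/-- **Artin groups of type `B`** -/
theorem B_mem (n : ℕ) (hn : 1 ≤ n) : C (Artin (CoxeterMatrix.B n)) := by
  obtain ⟨m, rfl⟩ := Nat.exists_eq_add_of_le' hn
  exact hC.base.of_injective _ _ (embB m) (embB_injective m) (hh_mem hC hT (bn_mem hC hT m))

omit hC hT in
/-- free-by-cyclic groups suffice -/
theorem tor_of_free (hF : ∀ (m : ℕ) (φ : MulAut (FreeGroup (Fin m))),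
    C (FreeGroup (Fin m) ⋊[zpowersHom _ φ] Multiplicative ℤ)) (n : ℕ) (b : Bn n) : C (Tor n b) := by
  have h := hF (n + 1) (rho n b)
  have e : (rho n).comp (zpowersHom (Bn n) b) = zpowersHom _ (rho n b) := by
    apply MonoidHom.ext_mint
    simp
  unfold Tor
  rwa [e]

end Pool.Agent.H53.BR.FJ
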