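import Pool.Agent.H53.BR.Emb

/-!
The Artin group of affine type `A` inside the semidirect product of the free group and the braid group.
-/

set_option autoImplicit false

namespace Pool.Agent.H53.BR

open Pool.Agent.Helper741 Pool.Agent.H53.VA

section delta

variable {n : ℕ}

/-- `σ_{k-1} ⋯ σ_0` -/
def dd (n : ℕ) : ℕ → Bn n
  | 0 => 1
  | k + 1 => sg n k * dd n k

/-- `σ_{k-1} ⋯ σ_1` -/
def dd' (n : ℕ) : ℕ → Bn n
  | 0 => 1
  | k + 1 => if k = 0 then 1 else sg n k * dd' n k

theorem dd_comm (k : ℕ) : ∀ i, k + 1 ≤ i → Commute (sg n i) (dd n k) := by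
  induction k with
  | zero => exact fun i _ => Commute.one_right _
  | succ k ih =>
    intro i hi
    exact Commute.mul_right (sg_comm (by omega)).symm (ih i (by omega))

theorem dd_sg (k : ℕ) : ∀ i, 1 ≤ i → i < k → k ≤ n → dd n k * sg n i = sg n (i - 1) * dd n k := by
  induction k with
  | zero => intro i _ h; omega
  | succ k ih =>
    intro i h1 h2 h3
    rcases Nat.lt_succ_iff_lt_or_eq.1 h2 with h | h
    · show sg n k * dd n k * sg n i = sg n (i - 1) * (sg n k * dd n k)
      have e1 : sg n (i - 1) * sg n k = sg n k * sg n (i - 1) := sg_comm (by omega)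
      rw [mul_assoc, ih i h1 h (by omega), ← mul_assoc, ← e1, mul_assoc]
    · subst h
      obtain ⟨j, rfl⟩ := Nat.exists_eq_add_of_le' h1
      show sg n (j + 1) * (sg n j * dd n j) * sg n (j + 1) = sg n j * (sg n (j + 1) * (sg n j * dd n j))
      have e1 := dd_comm (n := n) j (j + 1) le_rfl
      have e2 := sg_braid (n := n) (i := j) (by omega)
      calc sg n (j + 1) * (sg n j * dd n j) * sg n (j + 1) =
          sg n (j + 1) * sg n j * (dd n j * sg n (j + 1)) := by group
        _ = sg n (j + 1) * sg n j * (sg n (j + 1) * dd n j) := by rw [e1.eq]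
        _ = sg n (j + 1) * sg n j * sg n (j + 1) * dd n j := by group
        _ = sg n j * sg n (j + 1) * sg n j * dd n j := by rw [e2]
        _ = _ := by group

theorem dd_eq (k : ℕ) : dd n (k + 1) = dd' n (k + 1) * sg n 0 := by
  induction k with
  | zero =>
    show sg n 0 * 1 = (if 0 = 0 then 1 else _) * sg n 0
    rw [if_pos rfl, one_mul, mul_one]
  | succ k ih =>
    show sg n (k + 1) * dd n (k + 1) = (if k + 1 = 0 then 1 else sg n (k + 1) * dd' n (k + 1)) * sg n 0
    rw [if_neg (by omega), ih, mul_assoc]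

theorem dd_dd' (k : ℕ) (hk : k + 1 ≤ n) : dd n n * dd' n (k + 1) = dd n k * dd n n := by
  induction k with
  | zero =>
    show dd n n * (if 0 = 0 then 1 else _) = 1 * dd n n
    rw [if_pos rfl, one_mul, mul_one]
  | succ k ih =>
    show dd n n * (if k + 1 = 0 then 1 else sg n (k + 1) * dd' n (k + 1)) = sg n k * dd n k * dd n n
    rw [if_neg (by omega), ← mul_assoc, dd_sg n (k + 1) (by omega) (by omega) le_rfl, mul_assoc,
      ih (by omega), Nat.add_sub_cancel, mul_assoc]

theorem dd_last (h : 1 ≤ n) : sg n (n - 1) * dd n n * dd' n n = dd n n * dd n n := by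
  obtain ⟨m, rfl⟩ := Nat.exists_eq_add_of_le' h
  rw [mul_assoc, dd_dd' m le_rfl, Nat.add_sub_cancel, ← mul_assoc]
  rfl

end delta

section rho

variable {G : Type*} [Group G] {n : ℕ} (g : Bn n →* G) (t : G)
variable (h1 : ∀ i, 1 ≤ i → i < n → t * g (sg n i) = g (sg n i) * t)

/-- the rotation -/
def rr : G := g (dd n n) * t

include h1 in
theorem rr_sg {i : ℕ} (hi : 1 ≤ i) (hin : i < n) : rr g t * g (sg n i) = g (sg n (i - 1)) * rr g t := by
  unfold rr
  rw [mul_assoc, h1 i hi hin, ← mul_assoc, ← map_mul, dd_sg n i hi hin le_rfl, map_mul, mul_assoc]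

include h1 in
theorem t_dd' (k : ℕ) (hk : k ≤ n) : Commute t (g (dd' n k)) := by
  induction k with
  | zero =>
    show Commute t (g 1)
    rw [map_one]
    exact Commute.one_right _
  | succ k ih =>
    show Commute t (g (if k = 0 then 1 else sg n k * dd' n k))
    split_ifs with h
    · rw [map_one]
      exact Commute.one_right _
    · rw [map_mul]
      exact Commute.mul_right (h1 k (by omega) (by omega)) (ih (by omega))

include h1 in
theorem rr_rr (hn : 1 ≤ n) : rr g t * rr g t =
    g (dd' n n * sg n 0 * dd' n n) * (t * g (sg n 0) * t) := by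
  obtain ⟨m, rfl⟩ := Nat.exists_eq_add_of_le' hn
  have e1 := t_dd' g t h1 (m + 1) le_rfl
  unfold rr
  rw [dd_eq, map_mul, map_mul, map_mul]
  generalize g (dd' (m + 1) (m + 1)) = a at *
  generalize g (sg (m + 1) 0) = s at *
  calc a * s * t * (a * s * t) = a * s * (t * a) * s * t := by group
    _ = a * s * (a * t) * s * t := by rw [e1.eq]
    _ = _ := by group

include h1 in
theorem rr_one (hn : 1 ≤ n) : rr g t * rr g t * g (sg n 0) =
    g (dd' n n * sg n 0 * dd' n n) * (t * g (sg n 0) * t * g (sg n 0)) := by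
  rw [rr_rr g t h1 hn, mul_assoc]

include h1 in
theorem rr_two (hn : 1 ≤ n) : g (sg n (n - 1)) * (rr g t * rr g t) =
    g (dd' n n * sg n 0 * dd' n n) * (g (sg n 0) * t * g (sg n 0) * t) := by
  rw [rr_rr g t h1 hn]
  have e1 := dd_last hn
  obtain ⟨m, rfl⟩ := Nat.exists_eq_add_of_le' hn
  have e2 : sg (m + 1) (m + 1 - 1) * (dd' (m + 1) (m + 1) * sg (m + 1) 0 * dd' (m + 1) (m + 1)) =
      dd' (m + 1) (m + 1) * sg (m + 1) 0 * dd' (m + 1) (m + 1) * sg (m + 1) 0 := by
    rw [← dd_eq, ← mul_assoc, e1, mul_assoc, ← dd_eq]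
  rw [← mul_assoc, ← map_mul, e2, map_mul]
  simp only [mul_assoc]

/-- the conjugates of the first generator -/
def cc (k : ℤ) : G := (rr g t) ^ (-k) * g (sg n 0) * (rr g t) ^ k

theorem cc_add (a b : ℤ) : cc g t (a + b) = (rr g t) ^ (-a) * cc g t b * (rr g t) ^ a := by
  unfold cc
  rw [neg_add, zpow_add, add_comm a b, zpow_add]
  simp only [mul_assoc]

include h1 in
theorem cc_nat (i : ℕ) (hi : i < n) : cc g t i = g (sg n i) := by
  induction i with
  | zero => simp [cc]
  | succ i ih =>
    have e1 := rr_sg g t h1 (i := i + 1) (by omega) hi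
    rw [Nat.add_sub_cancel] at e1
    have e2 : ((i + 1 : ℕ) : ℤ) = 1 + i := by push_cast; ring
    rw [e2, cc_add, ih (by omega), zpow_one, zpow_neg_one, mul_assoc, ← e1, inv_mul_cancel_left]

variable (h2 : 0 < n → t * g (sg n 0) * t * g (sg n 0) = g (sg n 0) * t * g (sg n 0) * t)

include h1 h2 in
theorem cc_period (hn : 1 ≤ n) (k : ℤ) : cc g t (n + 1 + k) = cc g t k := by
  have e1 : cc g t (n + 1) = cc g t 0 := by
    have e2 := (rr_one g t h1 hn).trans ((by rw [h2 hn] :
      g (dd' n n * sg n 0 * dd' n n) * (t * g (sg n 0) * t * g (sg n 0)) =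
      g (dd' n n * sg n 0 * dd' n n) * (g (sg n 0) * t * g (sg n 0) * t)).trans
        (rr_two g t h1 hn).symm)
    have e3 := cc_nat g t h1 (n - 1) (by omega)
    rw [← e3] at e2
    have e4 : ((n : ℤ) + 1) = 2 + ((n - 1 : ℕ) : ℤ) := by
      have : ((n - 1 : ℕ) : ℤ) = (n : ℤ) - 1 := by
        rw [Nat.cast_sub hn]
        rfl
      rw [this]
      ring
    rw [e4, cc_add]
    have e5 : (rr g t) ^ (2 : ℤ) = rr g t * rr g t := by
      rw [show (2 : ℤ) = ((2 : ℕ) : ℤ) from rfl, zpow_natCast, pow_two]
    rw [zpow_neg, e5, mul_assoc, ← e2, inv_mul_cancel_left]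
    simp [cc]
  rw [add_comm, cc_add, e1, ← cc_add, add_zero]

include h1 h2 in
/-- the relations of the cycle -/
theorem cc_rel (hn : 2 ≤ n) (a : ℤ) (d : ℕ) (hd : 1 ≤ d) (hdn : d ≤ n) (L : ℕ)
    (hL : L = if d = 1 ∨ d = n then 3 else 2) :
    alt (cc g t a) (cc g t (a + d)) L = alt (cc g t (a + d)) (cc g t a) L := by
  -- conjugation
  have hconj : ∀ (b c e : ℤ), alt (cc g t b) (cc g t c) L = alt (cc g t c) (cc g t b) L →
      alt (cc g t (e + b)) (cc g t (e + c)) L = alt (cc g t (e + c)) (cc g t (e + b)) L := by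
    intro b c e h
    have h3 : ∀ x : ℤ, cc g t (e + x) = MulAut.conj ((rr g t) ^ (-e)) (cc g t x) := by
      intro x
      rw [cc_add, MulAut.conj_apply, ← zpow_neg, neg_neg]
    rw [h3, h3]
    have h4 := congrArg (MulAut.conj ((rr g t) ^ (-e))).toMonoidHom h
    rw [map_alt, map_alt] at h4
    exact h4
  have e0 : cc g t 0 = g (sg n 0) := by
    have := cc_nat g t h1 0 (by omega)
    simpa using this
  have e1 : cc g t 1 = g (sg n 1) := by
    have := cc_nat g t h1 1 (by omega)
    simpa using this
  have hb : g (sg n 0) * g (sg n 1) * g (sg n 0) = g (sg n 1) * g (sg n 0) * g (sg n 1) := by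
    rw [← map_mul, ← map_mul, ← map_mul, ← map_mul, sg_braid (by omega)]
  suffices h : alt (cc g t 0) (cc g t d) L = alt (cc g t d) (cc g t 0) L by
    have := hconj 0 d a h
    rwa [add_zero] at this
  by_cases hd1 : d = 1
  · rw [if_pos (Or.inl hd1)] at hL
    rw [hd1, hL, alt_three, alt_three, Nat.cast_one, e0, e1, hb]
  · by_cases hd2 : d = n
    · rw [if_pos (Or.inr hd2)] at hL
      subst hd2
      have h3 : alt (cc g t 1) (cc g t 0) L = alt (cc g t 0) (cc g t 1) L := by
        rw [hL, alt_three, alt_three, e0, e1, hb]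
      have h4 := hconj 1 0 (-1) h3
      have h5 : cc g t (-1 + 0) = cc g t d := by
        rw [← cc_period g t h1 h2 (by omega) (-1 + 0)]
        congr 1
        ring
      rw [h5, show (-1 : ℤ) + 1 = 0 by norm_num] at h4
      exact h4
    · rw [if_neg (by rintro (h | h); exacts [hd1 h, hd2 h])] at hL
      rw [hL, alt_two, alt_two, e0, cc_nat g t h1 d (by omega), ← map_mul, ← map_mul,
        sg_comm (by omega)]

end rho

section cyc

variable {n : ℕ}

theorem cyc_apply (n : ℕ) (i j : ZMod n) : cyc n i j =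
    if i = j then 1 else if i + 1 = j ∨ j + 1 = i then 3 else 2 := rfl

theorem val_lt' (n : ℕ) (i : ZMod (n + 1)) : i.val < n + 1 := ZMod.val_lt i

/-- the homomorphism on the Artin group of the cycle -/
def embC {G : Type*} [Group G] (g : Bn n →* G) (t : G)
    (h1 : ∀ i, 1 ≤ i → i < n → t * g (sg n i) = g (sg n i) * t)
    (h2 : 0 < n → t * g (sg n 0) * t * g (sg n 0) = g (sg n 0) * t * g (sg n 0) * t)
    (hn : 2 ≤ n) : Artin (cyc (n + 1)) →* G :=
  Artin.lift (fun i => cc g t i.val) (by
    have key : ∀ i j : ZMod (n + 1), i.val < j.val →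
        alt (cc g t i.val) (cc g t j.val) (cyc (n + 1) i j) =
          alt (cc g t j.val) (cc g t i.val) (cyc (n + 1) i j) := by
      intro i j hij
      have hi := val_lt' n i
      have hj := val_lt' n j
      obtain ⟨d, hd⟩ := Nat.exists_eq_add_of_lt hij
      have e1 : (j.val : ℤ) = i.val + ((d + 1 : ℕ) : ℤ) := by rw [hd]; push_cast; ring
      rw [e1]
      refine cc_rel g t h1 h2 hn _ (d + 1) (by omega) (by omega) _ ?_
      rw [cyc_apply, if_neg (fun h => by rw [h] at hij; omega)]
      have hi' : ((i.val : ℕ) : ZMod (n + 1)) = i := ZMod.natCast_zmod_val i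
      have hj' : ((j.val : ℕ) : ZMod (n + 1)) = j := ZMod.natCast_zmod_val j
      have f1 : i + 1 = j ↔ d + 1 = 1 := by
        constructor
        · intro h
          have h3 : ((i.val + 1 : ℕ) : ZMod (n + 1)) = (j.val : ℕ) := by
            push_cast
            rw [hi', hj', h]
          rw [ZMod.natCast_eq_natCast_iff] at h3
          have h4 := Nat.ModEq.eq_of_lt_of_lt h3 (by omega) hj
          omega
        · intro h
          have h3 : j.val = i.val + 1 := by omega
          rw [← hi', ← hj', h3]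
          push_cast
          rfl
      have f2 : j + 1 = i ↔ d + 1 = n := by
        constructor
        · intro h
          have h3 : ((j.val + 1 : ℕ) : ZMod (n + 1)) = (i.val : ℕ) := by
            push_cast
            rw [hi', hj', h]
          rw [ZMod.natCast_eq_natCast_iff'] at h3
          rw [Nat.mod_eq_of_lt hi] at h3
          by_cases h4 : j.val + 1 = n + 1
          · rw [h4, Nat.mod_self] at h3
            omega
          · rw [Nat.mod_eq_of_lt (by omega)] at h3
            omega
        · intro h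
          have h3 : j.val = n := by omega
          have h4 : i.val = 0 := by omega
          rw [← hi', ← hj', h3, h4]
          have : ((n + 1 : ℕ) : ZMod (n + 1)) = 0 := ZMod.natCast_self _
          push_cast at this ⊢
          exact this
      rw [if_congr (or_congr f1 f2) rfl rfl]
    intro i j
    rcases lt_trichotomy i.val j.val with h | h | h
    · exact key i j h
    · have : i = j := ZMod.val_injective _ h
      rw [this]
    · have := (key j i h).symm
      rwa [(cyc (n + 1)).symmetric j i] at this)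

theorem embC_gen {G : Type*} [Group G] (g : Bn n →* G) (t : G)
    (h1 : ∀ i, 1 ≤ i → i < n → t * g (sg n i) = g (sg n i) * t)
    (h2 : 0 < n → t * g (sg n 0) * t * g (sg n 0) = g (sg n 0) * t * g (sg n 0) * t)
    (hn : 2 ≤ n) (i : ZMod (n + 1)) : embC g t h1 h2 hn (Artin.gen _ i) = cc g t i.val :=
  Artin.lift_gen _ _ _

end cyc

end Pool.Agent.H53.BR
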