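import Pool.Agent.H53.BR.Emb

/-!
The braid group on `n + 2` strands inside the wreath product of the semidirect product of the free group
of rank `n + 1` and the braid group on `n + 1` strands with the symmetric group.
-/

set_option autoImplicit false

namespace Pool.Agent.H53.BR

open Pool.Agent.Helper741

/-- the adjacent transposition on the natural numbers -/
def tt (i k : ℕ) : ℕ := if k = i then i + 1 else if k = i + 1 then i else k

theorem tt_self (i : ℕ) : tt i i = i + 1 := if_pos rfl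

theorem tt_succ (i : ℕ) : tt i (i + 1) = i := by
  unfold tt
  rw [if_neg (by omega), if_pos rfl]

theorem tt_ne {i k : ℕ} (h1 : k ≠ i) (h2 : k ≠ i + 1) : tt i k = k := by
  unfold tt
  rw [if_neg h1, if_neg h2]

section cocycle

variable {n : ℕ}

/-- the cocycle: the special strand is in position `k` and crosses with `σ_i` -/
def cz (n k i : ℕ) : HH n :=
  if k = i then xx n i else if k = i + 1 then 1 else if k < i then ss n (i - 1) else ss n i

theorem cz_self (i : ℕ) : cz n i i = xx n i := if_pos rfl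

theorem cz_succ (i : ℕ) : cz n (i + 1) i = 1 := by
  unfold cz
  rw [if_neg (by omega), if_pos rfl]

theorem cz_lt {k i : ℕ} (h : k < i) : cz n k i = ss n (i - 1) := by
  unfold cz
  rw [if_neg (by omega), if_neg (by omega), if_pos h]

theorem cz_gt {k i : ℕ} (h : i + 1 < k) : cz n k i = ss n i := by
  unfold cz
  rw [if_neg (by omega), if_neg (by omega), if_neg (by omega)]

theorem cz_comm {i j : ℕ} (hij : i + 2 ≤ j) (hj : j ≤ n) (k : ℕ) (hk : k ≤ n + 1) :
    cz n k i * cz n (tt i k) j = cz n k j * cz n (tt j k) i := by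
  by_cases h1 : k = i
  · subst h1
    rw [tt_self, tt_ne (by omega) (by omega), cz_self, cz_lt (by omega), cz_lt (by omega)]
    exact (ss_xx_ne (by omega) (by omega) (by omega) (by omega)).symm
  · by_cases h2 : k = i + 1
    · subst h2
      rw [tt_succ, tt_ne (by omega) (by omega), cz_succ, cz_lt (by omega), cz_lt (by omega), one_mul,
        mul_one]
    · rw [tt_ne h1 h2]
      by_cases h3 : k = j
      · subst h3
        rw [tt_self, cz_self, cz_gt (by omega), cz_gt (by omega)]
        exact ss_xx_ne (by omega) (by omega) (by omega) (by omega)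
      · by_cases h4 : k = j + 1
        · subst h4
          rw [tt_succ, cz_succ, cz_gt (by omega), cz_gt (by omega), one_mul, mul_one]
        · rw [tt_ne h3 h4]
          rcases lt_or_gt_of_ne h1 with h5 | h5
          · rw [cz_lt h5, cz_lt (by omega)]
            exact ss_comm (by omega)
          · rw [cz_gt (by omega : i + 1 < k)]
            rcases lt_or_gt_of_ne h3 with h6 | h6
            · rw [cz_lt h6]
              exact ss_comm (by omega)
            · rw [cz_gt (by omega : j + 1 < k)]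
              exact ss_comm (by omega)

theorem cz_braid {i : ℕ} (hi : i + 1 ≤ n) (k : ℕ) (hk : k ≤ n + 1) :
    cz n k i * cz n (tt i k) (i + 1) * cz n (tt (i + 1) (tt i k)) i =
      cz n k (i + 1) * cz n (tt (i + 1) k) i * cz n (tt i (tt (i + 1) k)) (i + 1) := by
  have a0 : tt (i + 1) i = i := tt_ne (by omega) (by omega)
  have a1 : tt i (i + 1 + 1) = i + 1 + 1 := tt_ne (by omega) (by omega)
  have b0 : cz n (i + 1 + 1) i = ss n i := cz_gt (by omega)
  have b1 : cz n i (i + 1) = ss n i := by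
    rw [cz_lt (by omega), Nat.add_sub_cancel]
  have hx := ss_xx_self (n := n) (i := i) (by omega)
  have hy := ss_xx_succ (n := n) (i := i) (by omega)
  by_cases h1 : k = i
  · subst h1
    rw [tt_self, tt_self, a0, tt_self, cz_self, cz_self, b0, b1]
    -- x_k x_{k+1} s = s x_k x_{k+1}
    calc xx n k * xx n (k + 1) * ss n k =
        xx n (k + 1) * ((xx n (k + 1))⁻¹ * xx n k * xx n (k + 1) * ss n k) := by group
      _ = xx n (k + 1) * (ss n k * xx n (k + 1)) := by rw [hy]
      _ = (xx n (k + 1) * ss n k) * xx n (k + 1) := by group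
      _ = (ss n k * xx n k) * xx n (k + 1) := by rw [hx]
  · by_cases h2 : k = i + 1
    · subst h2
      rw [tt_succ, tt_self, a1, a0, cz_succ, b1, cz_self, cz_self, b0, cz_succ, one_mul, mul_one, hx]
    · by_cases h3 : k = i + 1 + 1
      · subst h3
        rw [a1, tt_succ, tt_succ, b0, cz_succ, cz_succ, b1, mul_one, mul_one, one_mul, one_mul]
      · rw [tt_ne h1 h2, tt_ne h2 h3, tt_ne h1 h2]
        rcases lt_or_gt_of_ne h1 with h5 | h5
        · rw [cz_lt h5, cz_lt (by omega : k < i + 1), Nat.add_sub_cancel]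
          have := ss_braid (n := n) (i := i - 1) (by omega)
          rwa [Nat.sub_add_cancel (by omega)] at this
        · rw [cz_gt (by omega : i + 1 < k), cz_gt (by omega : i + 1 + 1 < k)]
          exact ss_braid (by omega)

end cocycle

section wreath

variable (n : ℕ)

/-- the wreath product -/
abbrev Wr (G : Type) [Group G] (m : ℕ) : Type :=
  (Fin m → G) ⋊[mulAutArrow (G := Equiv.Perm (Fin m)) (A := Fin m) (M := G)] Equiv.Perm (Fin m)

/-- the transposition -/
def sw (m i : ℕ) : Equiv.Perm (Fin m) :=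
  if h : i + 1 < m then Equiv.swap ⟨i, by omega⟩ ⟨i + 1, h⟩ else 1

theorem sw_val {m i : ℕ} (h : i + 1 < m) (k : Fin m) : (sw m i k : ℕ) = tt i k := by
  unfold sw
  rw [dif_pos h]
  by_cases h1 : (k : ℕ) = i
  · have : k = ⟨i, by omega⟩ := Fin.ext h1
    rw [this, Equiv.swap_apply_left]
    exact (tt_self i).symm
  · by_cases h2 : (k : ℕ) = i + 1
    · have : k = ⟨i + 1, h⟩ := Fin.ext h2
      rw [this, Equiv.swap_apply_right]
      exact (tt_succ i).symm
    · rw [Equiv.swap_apply_of_ne_of_ne (fun h => h1 (by rw [h])) (fun h => h2 (by rw [h])), tt_ne h1 h2]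

theorem sw_inv (m i : ℕ) : (sw m i)⁻¹ = sw m i := by
  unfold sw
  split_ifs
  · exact Equiv.swap_inv _ _
  · exact inv_one

/-- the images of the generators -/
def wg (n i : ℕ) : Wr (HH n) (n + 2) := ⟨fun k => cz n k i, sw (n + 2) i⟩

theorem wr_mul_left {G : Type} [Group G] {m : ℕ} (a b : Wr G m) (k : Fin m) :
    (a * b).left k = a.left k * b.left (a.right⁻¹ k) := rfl

theorem wg_comm {n i j : ℕ} (hij : i + 2 ≤ j) (hj : j < n + 1) : wg n i * wg n j = wg n j * wg n i := by
  refine SemidirectProduct.ext ?_ ?_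
  · funext k
    rw [wr_mul_left, wr_mul_left]
    show cz n k i * cz n ((sw (n + 2) i)⁻¹ k : Fin (n + 2)) j =
      cz n k j * cz n ((sw (n + 2) j)⁻¹ k : Fin (n + 2)) i
    rw [sw_inv, sw_inv, sw_val (by omega), sw_val (by omega)]
    exact cz_comm hij (by omega) k (by have := k.2; omega)
  · show sw (n + 2) i * sw (n + 2) j = sw (n + 2) j * sw (n + 2) i
    refine Equiv.ext fun k => Fin.ext ?_
    rw [Equiv.Perm.mul_apply, Equiv.Perm.mul_apply, sw_val (by omega), sw_val (by omega),
      sw_val (by omega), sw_val (by omega)]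
    unfold tt
    split_ifs <;> omega

theorem wg_braid {n i : ℕ} (hi : i + 1 < n + 1) :
    wg n i * wg n (i + 1) * wg n i = wg n (i + 1) * wg n i * wg n (i + 1) := by
  refine SemidirectProduct.ext ?_ ?_
  · funext k
    have key : ∀ a b : ℕ, a + 1 < n + 2 → b + 1 < n + 2 → (wg n a * wg n b * wg n a).left k =
        cz n k a * cz n (tt a k) b * cz n (tt b (tt a k)) a := by
      intro a b ha hb
      rw [wr_mul_left, wr_mul_left]
      show cz n k a * cz n ((sw (n + 2) a)⁻¹ k : Fin (n + 2)) b *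
        cz n ((sw (n + 2) a * sw (n + 2) b)⁻¹ k : Fin (n + 2)) a = _
      rw [mul_inv_rev, Equiv.Perm.mul_apply, sw_inv, sw_inv, sw_val hb, sw_val ha]
    rw [key _ _ (by omega) (by omega), key _ _ (by omega) (by omega)]
    exact cz_braid (by omega) k (by have := k.2; omega)
  · show sw (n + 2) i * sw (n + 2) (i + 1) * sw (n + 2) i =
      sw (n + 2) (i + 1) * sw (n + 2) i * sw (n + 2) (i + 1)
    refine Equiv.ext fun k => Fin.ext ?_
    simp only [Equiv.Perm.mul_apply]
    rw [sw_val (by omega), sw_val (by omega), sw_val (by omega), sw_val (by omega), sw_val (by omega),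
      sw_val (by omega)]
    unfold tt
    split_ifs <;> omega

/-- **the monodromy homomorphism** -/
def mono (n : ℕ) : Bn (n + 1) →* Wr (HH n) (n + 2) :=
  bLift (wg n) (fun _ _ h hj => wg_comm h hj) fun _ h => wg_braid h

theorem mono_sg {n i : ℕ} (hi : i < n + 1) : mono n (sg (n + 1) i) = wg n i := bLift_sg _ _ _ hi

end wreath

section gauge

/-- the shift -/
def gS (n : ℕ) : Bn n →* Bn (n + 1) :=
  bLift (fun i => sg (n + 1) (i + 1)) (fun _ _ h _ => sg_comm (by omega)) fun _ h => sg_braid (by omega)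

theorem gS_sg {n i : ℕ} (hi : i < n) : gS n (sg n i) = sg (n + 1) (i + 1) := bLift_sg _ _ _ hi

/-- the square of the first generator -/
def tS (n : ℕ) : Bn (n + 1) := sg (n + 1) 0 * sg (n + 1) 0

theorem tS_comm {n : ℕ} (i : ℕ) (hi : 1 ≤ i) (hin : i < n) : tS n * gS n (sg n i) = gS n (sg n i) * tS n := by
  rw [gS_sg hin]
  have h : Commute (sg (n + 1) 0) (sg (n + 1) (i + 1)) := sg_comm (by omega)
  exact (h.mul_left h).eq

theorem tS_B {n : ℕ} (hn : 0 < n) : tS n * gS n (sg n 0) * tS n * gS n (sg n 0) =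
    gS n (sg n 0) * tS n * gS n (sg n 0) * tS n := by
  rw [gS_sg hn]
  have h := sg_braid (n := n + 1) (i := 0) (by omega)
  unfold tS
  rw [zero_add] at h ⊢
  generalize sg (n + 1) 0 = a at *
  generalize sg (n + 1) 1 = b at *
  calc a * a * b * (a * a) * b = a * (a * b * a) * a * b := by group
    _ = a * (b * a * b) * a * b := by rw [h]
    _ = (a * b * a) * b * a * b := by group
    _ = (b * a * b) * b * a * b := by rw [h]
    _ = b * a * b * (b * a * b) := by group
    _ = b * a * b * (a * b * a) := by rw [h]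
    _ = b * a * (b * a * b) * a := by group
    _ = b * a * (a * b * a) * a := by rw [h]
    _ = b * (a * a) * b * (a * a) := by group

/-- the homomorphism back -/
def psi (n : ℕ) : HH n →* Bn (n + 1) := hlift (gS n) (tS n) tS_comm tS_B

theorem psi_ss {n i : ℕ} (hi : i < n) : psi n (ss n i) = sg (n + 1) (i + 1) :=
  (hlift_inr _ _ _ _ _).trans (gS_sg hi)

theorem psi_xx {n k : ℕ} (hk : k ≤ n) : psi n (xx n k) = yy (gS n) (tS n) k := hlift_x _ _ _ _ hk

/-- the gauge -/
def vv (n : ℕ) : ℕ → Bn (n + 1)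
  | 0 => 1
  | k + 1 => vv n k * (sg (n + 1) k)⁻¹

theorem vv_comm {n : ℕ} (k : ℕ) : ∀ i, k + 1 ≤ i → Commute (vv n k) (sg (n + 1) i) := by
  induction k with
  | zero => exact fun i _ => Commute.one_left _
  | succ k ih =>
    intro i hi
    exact Commute.mul_left (ih i (by omega)) (Commute.inv_left (sg_comm (by omega)))

theorem vv_gt {n : ℕ} (k i : ℕ) (h : i + 2 ≤ k) (hk : k ≤ n + 1) :
    vv n k * sg (n + 1) i * (vv n k)⁻¹ = sg (n + 1) (i + 1) := by
  induction k, h using Nat.le_induction with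
  | base =>
    have h1 := sg_braid (n := n + 1) (i := i) (by omega)
    have h2 := vv_comm (n := n) i (i + 1) le_rfl
    show vv n i * (sg (n + 1) i)⁻¹ * (sg (n + 1) (i + 1))⁻¹ * sg (n + 1) i *
      (vv n i * (sg (n + 1) i)⁻¹ * (sg (n + 1) (i + 1))⁻¹)⁻¹ = _
    generalize sg (n + 1) i = a at *
    generalize sg (n + 1) (i + 1) = b at *
    generalize vv n i = v at *
    calc v * a⁻¹ * b⁻¹ * a * (v * a⁻¹ * b⁻¹)⁻¹ = v * (a⁻¹ * b⁻¹ * (a * b * a)) * v⁻¹ := by group
      _ = v * (a⁻¹ * b⁻¹ * (b * a * b)) * v⁻¹ := by rw [h1]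
      _ = v * b * v⁻¹ := by group
      _ = b := by rw [h2.eq, mul_inv_cancel_right]
  | succ k hk' ih =>
    have h1 := ih (by omega)
    have h2 : sg (n + 1) i * sg (n + 1) k = sg (n + 1) k * sg (n + 1) i := sg_comm (by omega)
    show vv n k * (sg (n + 1) k)⁻¹ * sg (n + 1) i * (vv n k * (sg (n + 1) k)⁻¹)⁻¹ = _
    rw [← h1]
    generalize sg (n + 1) i = a at *
    generalize sg (n + 1) k = b at *
    calc vv n k * b⁻¹ * a * (vv n k * b⁻¹)⁻¹ = vv n k * b⁻¹ * (a * b) * (vv n k)⁻¹ := by group
      _ = vv n k * b⁻¹ * (b * a) * (vv n k)⁻¹ := by rw [h2]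
      _ = _ := by group

theorem vv_sq {n : ℕ} (i : ℕ) (hi : i ≤ n) : yy (gS n) (tS n) i =
    vv n i * (sg (n + 1) i * sg (n + 1) i) * (vv n i)⁻¹ := by
  induction i with
  | zero =>
    show tS n = 1 * _ * (1 : Bn (n + 1))⁻¹
    rw [one_mul, inv_one, mul_one]
    rfl
  | succ i ih =>
    have h1 := sg_braid (n := n + 1) (i := i) (by omega)
    have h2 := vv_comm (n := n) i (i + 1) le_rfl
    show gS n (sg n i) * yy (gS n) (tS n) i * (gS n (sg n i))⁻¹ =
      vv n i * (sg (n + 1) i)⁻¹ * (sg (n + 1) (i + 1) * sg (n + 1) (i + 1)) *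
        (vv n i * (sg (n + 1) i)⁻¹)⁻¹
    rw [ih (by omega), gS_sg (by omega)]
    generalize sg (n + 1) i = a at *
    generalize sg (n + 1) (i + 1) = b at *
    generalize vv n i = v at *
    have h3 : b * a * b⁻¹ = a⁻¹ * b * a := by
      rw [mul_inv_eq_iff_eq_mul, mul_assoc, mul_assoc, eq_inv_mul_iff_mul_eq, ← mul_assoc, ← mul_assoc]
      exact h1
    calc b * (v * (a * a) * v⁻¹) * b⁻¹ = (b * v) * (a * a) * (b * v)⁻¹ := by group
      _ = (v * b) * (a * a) * (v * b)⁻¹ := by rw [h2.eq]
      _ = v * ((b * a * b⁻¹) * (b * a * b⁻¹)) * v⁻¹ := by group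
      _ = v * ((a⁻¹ * b * a) * (a⁻¹ * b * a)) * v⁻¹ := by rw [h3]
      _ = v * a⁻¹ * (b * b) * (v * a⁻¹)⁻¹ := by group

theorem gauge {n i k : ℕ} (hi : i ≤ n) (hk : k ≤ n + 1) :
    psi n (cz n k i) = vv n k * sg (n + 1) i * (vv n (tt i k))⁻¹ := by
  by_cases h1 : k = i
  · subst h1
    rw [cz_self, tt_self, psi_xx hi, vv_sq k hi]
    show _ = vv n k * sg (n + 1) k * (vv n k * (sg (n + 1) k)⁻¹)⁻¹
    group
  · by_cases h2 : k = i + 1
    · subst h2
      rw [cz_succ, tt_succ, map_one]
      show 1 = vv n i * (sg (n + 1) i)⁻¹ * sg (n + 1) i * (vv n i)⁻¹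
      group
    · rw [tt_ne h1 h2]
      rcases lt_or_gt_of_ne h1 with h5 | h5
      · rw [cz_lt h5, psi_ss (by omega), Nat.sub_add_cancel (by omega),
          (vv_comm (n := n) k i (by omega)).eq, mul_inv_cancel_right]
      · rw [cz_gt (by omega), psi_ss (by omega), vv_gt k i (by omega) hk]

theorem mono_gauge {n : ℕ} (b : Bn (n + 1)) : ∀ k : Fin (n + 2), psi n ((mono n b).left k) =
    vv n k * b * (vv n ((mono n b).right⁻¹ k : Fin (n + 2)))⁻¹ := by
  refine b_ind (p := fun b => ∀ k : Fin (n + 2), psi n ((mono n b).left k) =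
    vv n k * b * (vv n ((mono n b).right⁻¹ k : Fin (n + 2)))⁻¹) ?_ ?_ ?_ ?_ b
  · intro k
    rw [map_one, SemidirectProduct.one_left, SemidirectProduct.one_right, inv_one, mul_one]
    show psi n 1 = vv n k * (vv n k)⁻¹
    rw [map_one, mul_inv_cancel]
  · intro i hi k
    rw [mono_sg hi]
    show psi n (cz n k i) = vv n k * sg (n + 1) i * (vv n ((sw (n + 2) i)⁻¹ k : Fin (n + 2)))⁻¹
    rw [sw_inv, sw_val (by omega)]
    exact gauge (by omega) (by have := k.2; omega)
  · intro x y hx hy k
    rw [map_mul, wr_mul_left, map_mul, hx, hy, SemidirectProduct.mul_right, mul_inv_rev]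
    show _ = vv n k * (x * y) *
      (vv n ((mono n y).right⁻¹ ((mono n x).right⁻¹ k) : Fin (n + 2)))⁻¹
    group
  · intro x hx k
    have h1 : (mono n x⁻¹).left k = ((mono n x).left ((mono n x).right k))⁻¹ := by
      rw [map_inv]
      show ((mono n x).left ((mono n x).right⁻¹⁻¹ k))⁻¹ = _
      rw [inv_inv]
    rw [h1, map_inv, hx]
    have h2 : (mono n x).right⁻¹ ((mono n x).right k) = k := by
      rw [← Equiv.Perm.mul_apply, inv_mul_cancel, Equiv.Perm.one_apply]
    have h3 : (mono n x⁻¹).right⁻¹ k = (mono n x).right k := by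
      rw [map_inv, SemidirectProduct.inv_right, inv_inv]
    rw [h2, h3]
    group

/-- **the monodromy homomorphism is injective** -/
theorem mono_injective (n : ℕ) : Function.Injective (mono n) := by
  rw [injective_iff_map_eq_one]
  intro b hb
  have h1 := mono_gauge b 0
  rw [hb] at h1
  have h2 : psi n ((1 : Wr (HH n) (n + 2)).left 0) = 1 := by
    show psi n 1 = 1
    exact map_one _
  rw [h2] at h1
  have h3 : ((1 : Wr (HH n) (n + 2)).right⁻¹ (0 : Fin (n + 2))) = 0 := by
    rw [SemidirectProduct.one_right, inv_one, Equiv.Perm.one_apply]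
  rw [h3] at h1
  have h4 : vv n ((0 : Fin (n + 2)) : ℕ) = 1 := rfl
  rw [h4, one_mul, inv_one, mul_one] at h1
  exact h1.symm

end gauge

end Pool.Agent.H53.BR
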